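import Pool.Agent.X39.Near.Dep
import Pool.Agent.X39.Near.DepInt
import Pool.Agent.Results.MP_ede373_nt.AlgebraicPointsOrNomes

/-!
# The modular Schanuel conjecture with derivatives, points or nomes which are algebraic functions, at ALL algebraic
# parameters close to any point outside a set of dimension zero

Let `τ_1, …, τ_p` be analytic functions on a connected open set `U` with values in the upper half-plane, such that no
nontrivial combination of them with integral coefficients is constant and `j(τ_i)` and `j(τ_k)` are algebraically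
independent over `ℂ` for `i ≠ k`, and let `p` of the `5 p` functions

  `τ_i(x)`, `j(τ_i(x))`, `j'(τ_i(x))`, `j''(τ_i(x))`, `exp(2 π i τ_i(x))`

be algebraic over `ℂ(x)`; for instance, for every `i`, the point `τ_i(x)` or the nome `exp(2 π i τ_i(x))` (the structure
`Curve` of the starting file `AlgebraicPointsOrNomes`). If these algebraic functions are defined over the algebraic
numbers, the modular Schanuel conjecture with derivatives and Bertolin's conjecture predict that the other numbers are
as independent as possible at algebraic `x` (`3 p` of them, if the `τ_i(x)` are algebraic; all `4 p`, with the nomes).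

We prove, outside a set `E` of Hausdorff dimension `0` (for all number fields, degrees and scales): for every `x` in
`U`, *all* other `4 p` numbers, at ALL points `y` of a number field close to `x`, that is `|y - x| ≤ T ^ (-ω)`, `T` the
height of `y` and `ω > 0` arbitrarily small, satisfy no relation of bounded degree with coefficients of polynomial size,
even approximately; the coefficients may be polynomials in arbitrary constants `ξ_1, …, ξ_g` fixed in advance. In
particular nonzero integral polynomials of degree at most `d` and of height at most `T ^ A` have values of absolute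
value greater than `T ^ (-B)` at these numbers.

The starting result `AlgebraicPointsOrNomes` bounds the number of the exceptional points by `C T ^ ε`; here there is no
exception from some point on near `x`. The case of one point `τ(x) = x` and the case that the nomes are polynomials in
`x` are in the starting results `MP_2a98a8_nt.ApproximationsOfAllNumbers`, `MP_8f9d9d_nt.ApproximationsOfAllNumbers`.

Proof: the levels of the library give, on compact sets, at most `C T ^ ε` exceptional points of height `T`, for every
`ε > 0`, and so a limsup set of dimension `0` (`Pool.Agent.X39.Near`).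
-/

set_option autoImplicit false

open MvPolynomial NumberField
open Pool.Agent

namespace Pool.Agent.Results.MP_ede373_nt.ApproximationsOfAllNumbers

open Pool.Agent.X39.Near (Size Dep)
open Pool.Agent.Results.MP_ede373_nt.AlgebraicPointsOrNomes (Curve Name value value_eq nm mn fmj eqv loc)

/-- There is no relation between the numbers `v`: (1) in the sense of `Dep`, (2) for integral polynomials. -/
def NoRelation {J : Type} {g : ℕ} (v : J → ℂ) (ξ : Fin g → ℂ) (F : Type) [Field F] [NumberField F] (ι : F →+* ℂ)
    (d A : ℕ) (B T : ℝ) : Prop :=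
  ¬ Dep v ξ F ι d A B T ∧
  ∀ P : MvPolynomial J ℤ, P ≠ 0 → (∀ j, P.degreeOf j ≤ d) →
    (∀ e, |((P.coeff e : ℤ) : ℝ)| ≤ T ^ A) → T ^ (-B) < ‖aeval v P‖

/-- the `4 p` functions which are not among the `p` algebraic ones -/
noncomputable def others {p : ℕ} (τ : Fin p → ℂ → ℂ) (S : Finset (Name p)) (z : ℂ) (k : {x : Name p // x ∉ S}) : ℂ :=
  value τ z k.1

theorem others_ev {U : Set ℂ} {p : ℕ} {τ : Fin p → ℂ → ℂ} {S : Finset (Name p)} (h : Curve U τ S)
    (k : {x : Name p // x ∉ S}) {z : ℂ} (hz : z ∈ U) :
    others τ S z k = Y776.AxJ.yn τ (mn k.1) z := by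
  have h1 := value_eq h hz (mn k.1)
  have h2 : nm (mn k.1) = k.1 := (eqv p).right_inv k.1
  rw [h2] at h1
  exact h1

theorem others_an {U : Set ℂ} {p : ℕ} {τ : Fin p → ℂ → ℂ} {S : Finset (Name p)} (h : Curve U τ S)
    (k : {x : Name p // x ∉ S}) {z : ℂ} (hz : z ∈ U) : AnalyticAt ℂ (fun y => others τ S y k) z := by
  refine (Y776.AxJ.yn_an (fmj h) (mn k.1) z hz).congr ?_
  filter_upwards [h.isOpen.mem_nhds hz] with y hy
  exact (others_ev h k hy).symm

theorem others_ind {U : Set ℂ} {p : ℕ} {τ : Fin p → ℂ → ℂ} {S : Finset (Name p)} (h : Curve U τ S) {z : ℂ}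
    (hz : z ∈ U) : Y124.LocInd (fun k y => others τ S y k) z := by
  classical
  intro P hP
  apply loc h z hz P
  filter_upwards [hP, h.isOpen.mem_nhds hz] with y hy hyU
  rw [← hy]
  congr 2
  funext o
  rcases o with _ | k
  · rfl
  · exact (others_ev h k hyU).symm

/-- **Theorem.** Let `τ_1, …, τ_p` be functions on `U` as above, `p` of the `5 p` functions algebraic, and
`ξ_1, …, ξ_g` complex numbers. There is a set `E` of complex numbers of Hausdorff dimension `0` such that: (1) for all
`x` in `U` outside `E`, all number fields `F` with an embedding `ι` in `ℂ`, all `d`, `A` and `ω > 0` there are `B`, `T₁`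
such that for all `T ≥ T₁` and all `y ∈ F`, quotients of integers with conjugates at most `T`, with
`|ι y - x| ≤ T ^ (-ω)`, there is no relation between the `4 p` other numbers at `y`; (2) for all irrational real `x` in
`U` outside `E` and all `d`, `A` there is `B` such that this holds over `ℚ` at the convergents `y` of `x`, at the level
of the denominator, from some point on. -/
theorem result {g p : ℕ} (U : Set ℂ) (τ : Fin p → ℂ → ℂ) (S : Finset (Name p)) (h : Curve U τ S) (ξ : Fin g → ℂ) :
    ∃ E : Set ℂ, dimH E = 0 ∧
      (∀ x ∈ U, x ∉ E → ∀ (F : Type) [Field F] [NumberField F] (ι : F →+* ℂ) (d A : ℕ) (ω : ℝ), 0 < ω →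
        ∃ B T₁ : ℝ, ∀ T : ℝ, T₁ ≤ T → ∀ y : F, Size F T y → ‖ι y - x‖ ≤ T ^ (-ω) →
          NoRelation (others τ S (ι y)) ξ F ι d A B T) ∧
      ∀ x : ℝ, Irrational x → (x : ℂ) ∈ U → (x : ℂ) ∉ E → ∀ d A : ℕ, ∃ (B : ℝ) (n₀ : ℕ), ∀ k : ℕ, n₀ ≤ k →
        NoRelation (others τ S ((x.convergent k : ℚ) : ℂ)) ξ ℚ (algebraMap ℚ ℂ) d A B (x.convergent k).den := by
  classical
  obtain ⟨E, hE0, h1, h2⟩ := Pool.Agent.X39.Near.near_dep U h.isOpen (fun k z => others τ S z k)
    (fun k y hy => others_an h k hy) (fun y hy => others_ind h hy) ξ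
  refine ⟨E, hE0, fun x hxU hx F _ _ ι d A ω hω => ?_, fun x hx hxU hxE d A => ?_⟩
  · obtain ⟨B, T₁, h4⟩ := h1 x hxU hx F ι d A ω hω
    refine ⟨B, max T₁ 1, fun T hT y hy hyx => ?_⟩
    have h5 : ¬ Dep (others τ S (ι y)) ξ F ι d A B T := h4 T ((le_max_left _ _).trans hT) y hy hyx
    have hT0 : 0 < T := lt_of_lt_of_le one_pos ((le_max_right _ _).trans hT)
    exact ⟨h5, fun P hP hPd hPA => Pool.Agent.X39.Near.int_of_not_dep h5 hT0 P hP hPd fun e => by
      exact_mod_cast hPA e⟩
  · obtain ⟨B, n₀, h4⟩ := h2 x hx hxU hxE d A
    refine ⟨B, n₀, fun k hk => ?_⟩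
    have h5 : ¬ Dep (others τ S ((x.convergent k : ℚ) : ℂ)) ξ ℚ (algebraMap ℚ ℂ) d A B (x.convergent k).den :=
      h4 k hk
    have hT0 : (0 : ℝ) < (x.convergent k).den := by exact_mod_cast (x.convergent k).pos
    exact ⟨h5, fun P hP hPd hPA => Pool.Agent.X39.Near.int_of_not_dep h5 hT0 P hP hPd fun e => by
      exact_mod_cast hPA e⟩

end Pool.Agent.Results.MP_ede373_nt.ApproximationsOfAllNumbers
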