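import Pool.Agent.Seat74.TR.Par
import Pool.Agent.Results.MP_ede373_nt.SeveralParameters

/-!
# The modular Schanuel conjecture with derivatives for families in several variables, at ALL points of number fields near
# the points outside a set of small dimension

Let `τ_1, …, τ_p` (`p ≥ 1`) be nonconstant analytic functions on a connected open set `U` of `ℂ ^ X` (`X` any finite
set) with values in the upper half-plane, such that for `i ≠ k` the functions `j(τ_i)` and `j(τ_k)` satisfy no
polynomial relation with complex coefficients on at least one complex line, and let `w_1, …, w_s` be analytic functions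
on `U` no nontrivial combination of which with integral coefficients is constant (the structure `Family` of the starting
file `SeveralParameters`). There is no other condition on these functions; nothing needs to be algebraic. For each `z`
the modular Schanuel conjecture with derivatives, together with Schanuel's conjecture, says that in general the
transcendence degree of the field generated by `τ_i`, `j(τ_i)`, `j'(τ_i)`, `j''(τ_i)`, `w_k`, `exp(w_k)` is at least
`3 p + s`.

We show that `3 p + s` fixed numbers among them have the following property. Let `c_0, c_1, …` be any complex numbers.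
There is a set `E` of Hausdorff dimension at most `2 |X| - 2` (so of dimension `0` for one parameter) such that for ALL
`z` in `U` outside `E`, all number fields `K ⊂ ℂ`, all `k` and all exponents `ω > 0` (arbitrarily small), for all large
`T`, at ALL points `s` of `K ^ X` of height at most `T` with `|s_j - z_j| ≤ T ^ (-ω)`, these `3 p + s` numbers satisfy no
nonzero polynomial equation of partial degrees at most `k` whose coefficients are of the form `∑_{i < k} c_i a_i` with
integers `a_i` of `K` all of whose conjugates are at most `T ^ k`. For `|X| ≥ 2` the dimension cannot be smaller in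
general: the points at which two of the `τ_i` agree may form a hypersurface.

The starting result `SeveralParameters` covers the exceptional points of height at most `T` by few hypersurfaces. Here no
exceptional point is near `z` from some point on.

Proof: for fixed `k` the exceptional points of height at most `T` lie on `C T ^ ε` hypersurfaces of bounded degree
(`Pool.Agent.N207.GS.comp`), and the points near such hypersurfaces form a set of small dimension (uniform coverings of
the zeros of polynomials of bounded degree, `Pool.Agent.Helper264.NT.near_all`); there are only countably many number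
fields in `ℂ`.
-/

set_option autoImplicit false

open NumberField
open scoped ENNReal
open Pool.Agent

namespace Pool.Agent.Results.MP_ede373_nt.FamiliesNearEveryPoint

open Pool.Agent.Results.MP_ede373_nt.SeveralParameters (Family Name Height value exists_name)

/-- the numbers `v` satisfy a nonzero polynomial equation of partial degrees at most `k`, whose coefficients are
combinations `∑ c i * a i`, `i < k`, with integers `a i` of `K` all of whose conjugates are at most `T ^ k` -/
def Related {σ : Type} (v : σ → ℂ) (K : Type) [Field K] [NumberField K] (io : K →+* ℂ) (k : ℕ) (c : ℕ → ℂ)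
    (T : ℝ) : Prop :=
  ∃ R : MvPolynomial σ ℂ, R ≠ 0 ∧ (∀ y, R.degreeOf y ≤ k) ∧
    (∀ m, ∃ a : Fin k → 𝓞 K, (∀ i (φ : K →+* ℂ), ‖φ (a i : K)‖ ≤ T ^ (k : ℝ)) ∧
      R.coeff m = ∑ i : Fin k, c i * io (a i : K)) ∧
    MvPolynomial.eval v R = 0

/-- **Theorem.** Let `τ, w` be a family as above. One can choose `3 p + s` different functions `e_i` among the
`4 p + 2 s` functions such that for every sequence `c` of complex numbers there is a set `E` of Hausdorff dimension at
most `2 (|X| - 1)` with the following property: for all `z ∈ U` outside `E`, all number fields `K ⊂ ℂ`, all `k` and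
`ω > 0` there is `T₀` such that for all `T ≥ T₀` and all `s ∈ K ^ X` of height at most `T` with
`|s_j - z_j| ≤ T ^ (-ω)` the values of the functions `e_i` at `s` are not related. -/
theorem result (X : Type) [Fintype X] [DecidableEq X] [Nonempty X] (p s : ℕ) (U : Set (X → ℂ))
    (τ : Fin p → (X → ℂ) → ℂ) (w : Fin s → (X → ℂ) → ℂ) (h : Family U τ w) :
    ∃ e : Fin (3 * p + s) → Name p s, Function.Injective e ∧
      ∀ c : ℕ → ℂ, ∃ E : Set (X → ℂ), dimH E ≤ ((2 * (Fintype.card X - 1) : ℕ) : ℝ≥0∞) ∧ ∀ z ∈ U, z ∉ E →
        ∀ (K : IntermediateField ℚ ℂ) [NumberField K] (k : ℕ) (ω : ℝ), 0 < ω → ∃ T₀ : ℝ, ∀ T ≥ T₀,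
          ∀ x : X → K, (∀ j, Height K T (x j) ∧ ‖(x j : ℂ) - z j‖ ≤ T ^ (-ω)) →
            ¬ Related (fun i => value τ w (fun j => (x j : ℂ)) (e i)) K (algebraMap K ℂ) k c T := by
  classical
  obtain ⟨e, he, hI⟩ := N667.AX.modl N301.AX.indv X p s U τ w h.pos h.isOpen h.isPreconnected h.nonempty h.analytic
    h.im_pos h.nonconstant h.line h.analytic_w h.linear
  obtain ⟨f, hf, hv⟩ := exists_name X p s
  refine ⟨fun k => f (e k), fun a b hab => he (hf hab), fun c => ?_⟩
  have hval : ∀ i, ∀ z ∈ U, value τ w z (f (e i)) = N207.AX.ym τ w (e i) z := fun i z hz =>
    hv τ w z (fun i => h.im_pos i z hz) (e i)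
  have han : ∀ i, AnalyticOnNhd ℂ (fun z => value τ w z (f (e i))) U := fun i =>
    (N667.AX.ym_an h.analytic h.im_pos h.analytic_w (e i)).congr h.isOpen fun z hz => (hval i z hz).symm
  have hind : N207.AX.Ind U (fun i z => value τ w z (f (e i))) := by
    intro P hP
    apply hI P
    intro z hz
    rw [← hP z hz]
    congr 1
    funext i
    exact (hval i z hz).symm
  obtain ⟨E, hE1, hE2⟩ := Pool.Agent.Seat74.TR.near_ind h.isPreconnected h.isOpen h.nonempty han hind c
  exact ⟨E, hE1, fun z hz hzE K _ k ω hω => hE2 z hz hzE K k ω hω⟩

end Pool.Agent.Results.MP_ede373_nt.FamiliesNearEveryPoint
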