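import Pool.Agent.R485.AN.Pow
import Pool.Agent.Seat74.BM.Near
import Pool.Agent.Results.MP_ede373_nt.GrowingDegreeTuples

/-!
# The modular Schanuel conjecture with derivatives for all integral invariants near the powers of almost every real number

Let `j` be the modular invariant and let `z` be a point of the upper half-plane for which `j(z)` is an integer. Unless `z`
is a CM point, the modular Schanuel conjecture with derivatives predicts that the numbers `z`, `j'(z)`, `j''(z)` are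
algebraically independent.

Let `v_n` be real exponents such that the sums of `exp (-t v_n)` converge for all `t > 0`, for instance `v_n = n` or
`v_n = (n + 1) ^ η`, `η > 0`. We prove: for all `q` there is `C` such that for all `δ`, all complex numbers `w_1, …, w_q`
and all `0 ≤ θ < 1`, for all real numbers `α > 1` outside a set of Hausdorff dimension at most
`(1 - 1 / (δ + 2) ^ C) / (1 - θ)`, for all large `n`, ALL integers `d` with `|d - α ^ (v_n)| ≤ α ^ (θ v_n)` have the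
following property: for **all** points `z` of the upper half-plane with `j(z) = d` or `j(z) = -d` there is no nontrivial
relation of degree at most `δ`, whatever the height of its coefficients, between `2 π i, w_1, …, w_q` and the numbers `z`,
`j'(z)`, `j''(z)`, over any number field of degree at most `δ`. This contains the integral parts of the powers `α ^ n`.
It follows that for ALMOST ALL `α > 1` this is the case for every `δ` and all `n ≥ n₀(δ)`, with
`θ = 1 / (2 (δ + 2) ^ C)`.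

The integers near the powers of `α` are a very sparse set, and so this does not follow from the size of the exceptional
set, which is only smaller than `T` by a factor `T ^ c` with a small positive `c`.

Proof. The starting theorem `GrowingDegreeTuples` bounds the number of the exceptional integers up to `T` by
`C T ^ (1 - c)`, and the metric statement follows from `Pool.Agent.R485.AN.dim_pow`.
-/

set_option autoImplicit false

open Filter Topology MeasureTheory
open scoped ENNReal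

namespace Pool.Agent.Results.MP_ede373_nt.InvariantsNearPowers

open Pool.Agent.Results.MP_ede373_nt.GrowingDegreeTuples (Exceptional)

/-- the sums of `exp (-t v n)` converge for all `t > 0` -/
def Thin (v : ℕ → ℝ) : Prop := ∀ t : ℝ, 0 < t → Summable fun n : ℕ => Real.exp (-(t * v n))

/-- `d > 0` and there is a nontrivial relation of degree at most `δ` for some point `z` with `j(z) = d` or `j(z) = -d` -/
def Exc {q : ℕ} (δ : ℕ) (w : Fin q → ℂ) (d : ℕ) : Prop :=
  0 < d ∧ (Exceptional δ w (fun _ : Fin 1 => (d : ℤ)) ∨ Exceptional δ w (fun _ : Fin 1 => -(d : ℤ)))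

theorem count (q : ℕ) : ∃ C : ℕ, ∀ (δ : ℕ) (w : Fin q → ℂ) (X : ℝ), 1 ≤ X →
    (({d : ℕ | Exc δ w d ∧ (d : ℝ) ≤ X}.ncard : ℕ) : ℝ) ≤ 2 * C * X ^ (1 - 1 / ((δ : ℝ) + 2) ^ C) := by
  classical
  obtain ⟨C, hC⟩ := Pool.Agent.Results.MP_ede373_nt.GrowingDegreeTuples.result 1 q
  refine ⟨C, fun δ w X hX => ?_⟩
  have hT1 : 1 ≤ ⌊X⌋₊ := Nat.le_floor (by exact_mod_cast hX)
  have h1 := hC δ w ⌊X⌋₊ hT1
  set G := (Fintype.piFinset fun _ : Fin 1 => Finset.Icc (-((⌊X⌋₊ : ℕ) : ℤ)) (⌊X⌋₊ : ℕ)).filter fun n =>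
      (∀ i, n i ≠ 0) ∧ Exceptional δ w n with hG
  have hsub : {d : ℕ | Exc δ w d ∧ (d : ℝ) ≤ X} ⊆
      ((G.image fun n => (n 0).natAbs : Finset ℕ) : Set ℕ) := by
    rintro d ⟨⟨hd, hE⟩, hdX⟩
    have hdT : d ≤ ⌊X⌋₊ := Nat.le_floor hdX
    rw [Finset.mem_coe, Finset.mem_image]
    rcases hE with hE | hE
    · refine ⟨fun _ => (d : ℤ), ?_, by simp⟩
      rw [hG, Finset.mem_filter, Fintype.mem_piFinset]
      refine ⟨fun i => ?_, fun i => ?_, hE⟩
      · rw [Finset.mem_Icc]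
        constructor <;> omega
      · show (d : ℤ) ≠ 0
        omega
    · refine ⟨fun _ => -(d : ℤ), ?_, by simp⟩
      rw [hG, Finset.mem_filter, Fintype.mem_piFinset]
      refine ⟨fun i => ?_, fun i => ?_, hE⟩
      · rw [Finset.mem_Icc]
        constructor <;> omega
      · show -(d : ℤ) ≠ 0
        omega
  have h2 : {d : ℕ | Exc δ w d ∧ (d : ℝ) ≤ X}.ncard ≤ G.card := by
    refine (Set.ncard_le_ncard hsub (Finset.finite_toSet _)).trans ?_
    rw [Set.ncard_coe_finset]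
    exact Finset.card_image_le
  have hc0 : 0 ≤ 1 - 1 / ((δ : ℝ) + 2) ^ C := by
    have h3 : (1 : ℝ) ≤ (δ : ℝ) + 2 := by
      have : (0 : ℝ) ≤ δ := Nat.cast_nonneg δ
      linarith
    have h4 : 1 / ((δ : ℝ) + 2) ^ C ≤ 1 := by
      rw [div_le_one (by positivity)]
      exact one_le_pow₀ h3
    linarith
  calc (({d : ℕ | Exc δ w d ∧ (d : ℝ) ≤ X}.ncard : ℕ) : ℝ) ≤ (G.card : ℝ) := by exact_mod_cast h2
    _ ≤ C * ((⌊X⌋₊ : ℕ) : ℝ) ^ (((1 : ℕ) : ℝ) - 1 / ((δ : ℝ) + 2) ^ C) := h1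
    _ = C * ((⌊X⌋₊ : ℕ) : ℝ) ^ (1 - 1 / ((δ : ℝ) + 2) ^ C) := by rw [Nat.cast_one]
    _ ≤ C * X ^ (1 - 1 / ((δ : ℝ) + 2) ^ C) := by
        refine mul_le_mul_of_nonneg_left ?_ (Nat.cast_nonneg _)
        exact Real.rpow_le_rpow (Nat.cast_nonneg _) (Nat.floor_le (by linarith)) hc0
    _ ≤ _ := by
        have : 0 ≤ C * X ^ (1 - 1 / ((δ : ℝ) + 2) ^ C) := by positivity
        linarith

/-- **Theorem.** For all `q` there is `C` with the following properties, for all real exponents `v_n` such that the sums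
of `exp (-t v_n)` converge for all `t > 0`. (1) For all `δ`, `w` and `0 ≤ θ < 1` there is a set `E` of dimension at most
`(1 - 1 / (δ + 2) ^ C) / (1 - θ)` such that for all `α > 1` outside `E` and all large `n` no positive integer `d` with
`|d - α ^ (v_n)| ≤ α ^ (θ v_n)` is exceptional. (2) For all `w` and almost all `α > 1`, for all `δ` and all large `n`
no positive integer `d` with `|d - α ^ (v_n)| ≤ α ^ (v_n / (2 (δ + 2) ^ C))` is exceptional. The exponents `v_n = n` and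
`v_n = (n + 1) ^ η`, `η > 0`, have the required property. -/
theorem result (q : ℕ) : ∃ C : ℕ,
    (∀ v : ℕ → ℝ, Thin v → ∀ (δ : ℕ) (w : Fin q → ℂ) (θ : ℝ), 0 ≤ θ → θ < 1 →
      ∃ E : Set ℝ, dimH E ≤ ENNReal.ofReal ((1 - 1 / ((δ : ℝ) + 2) ^ C) / (1 - θ)) ∧ ∀ α : ℝ, 1 < α → α ∉ E →
        ∀ᶠ n in atTop, ∀ d : ℕ, |(d : ℝ) - α ^ (v n)| ≤ (α ^ (v n)) ^ θ → ¬ Exc δ w d) ∧
    (∀ v : ℕ → ℝ, Thin v → ∀ w : Fin q → ℂ, ∀ᵐ α : ℝ, 1 < α → ∀ δ : ℕ, ∀ᶠ n in atTop, ∀ d : ℕ,
      |(d : ℝ) - α ^ (v n)| ≤ (α ^ (v n)) ^ (1 / (2 * ((δ : ℝ) + 2) ^ C)) → ¬ Exc δ w d) ∧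
    Thin (fun n : ℕ => (n : ℝ)) ∧ (∀ η : ℝ, 0 < η → Thin (fun n : ℕ => ((n : ℝ) + 1) ^ η)) := by
  obtain ⟨C, hC⟩ := count q
  have hc1 : ∀ δ : ℕ, 1 / ((δ : ℝ) + 2) ^ C ≤ 1 := fun δ => by
    have h2 : (1 : ℝ) ≤ (δ : ℝ) + 2 := by
      have : (0 : ℝ) ≤ δ := Nat.cast_nonneg δ
      linarith
    rw [div_le_one (by positivity)]
    exact one_le_pow₀ h2
  have part1 : ∀ v : ℕ → ℝ, Thin v → ∀ (δ : ℕ) (w : Fin q → ℂ) (θ : ℝ), 0 ≤ θ → θ < 1 →
      ∃ E : Set ℝ, dimH E ≤ ENNReal.ofReal ((1 - 1 / ((δ : ℝ) + 2) ^ C) / (1 - θ)) ∧ ∀ α : ℝ, 1 < α → α ∉ E →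
        ∀ᶠ n in atTop, ∀ d : ℕ, |(d : ℝ) - α ^ (v n)| ≤ (α ^ (v n)) ^ θ → ¬ Exc δ w d := by
    intro v hv δ w θ h0 h1
    obtain ⟨E, hE1, hE2⟩ := Pool.Agent.R485.AN.dim_pow {d | Exc δ w d} (fun d hd => hd.1)
      (s := 1 - 1 / ((δ : ℝ) + 2) ^ C) (by linarith [hc1 δ]) h0 h1 (fun ε hε => by
        refine ⟨2 * C, by positivity, fun X hX => ?_⟩
        refine (hC δ w X hX).trans ?_
        refine mul_le_mul_of_nonneg_left ?_ (by positivity)
        exact Real.rpow_le_rpow_of_exponent_le hX (by linarith)) hv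
    refine ⟨E, hE1, fun α hα hαE => ?_⟩
    obtain ⟨n₀, hn⟩ := hE2 α hα hαE
    filter_upwards [eventually_ge_atTop n₀] with n hn1 d hd
    exact hn n hn1 d hd
  refine ⟨C, part1, fun v hv w => ?_, Pool.Agent.Seat74.BM.thin_id, Pool.Agent.Seat74.BM.thin_pow⟩
  have key : ∀ δ : ℕ, ∀ᵐ α : ℝ, 1 < α → ∀ᶠ n in atTop, ∀ d : ℕ,
      |(d : ℝ) - α ^ (v n)| ≤ (α ^ (v n)) ^ (1 / (2 * ((δ : ℝ) + 2) ^ C)) → ¬ Exc δ w d := by
    intro δ
    have hc0 : 0 < 1 / ((δ : ℝ) + 2) ^ C := by positivity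
    have hθ : 1 / (2 * ((δ : ℝ) + 2) ^ C) = (1 / ((δ : ℝ) + 2) ^ C) / 2 := by
      have : ((δ : ℝ) + 2) ^ C ≠ 0 := by positivity
      field_simp
    have hθ1 : 1 / (2 * ((δ : ℝ) + 2) ^ C) < 1 := by
      rw [hθ]
      linarith [hc1 δ]
    obtain ⟨E, hE1, hE2⟩ := part1 v hv δ w (1 / (2 * ((δ : ℝ) + 2) ^ C)) (by positivity) hθ1
    have hnull : volume E = 0 := by
      have h2 : (1 - 1 / ((δ : ℝ) + 2) ^ C) / (1 - 1 / (2 * ((δ : ℝ) + 2) ^ C)) < 1 := by
        rw [div_lt_one (by linarith), hθ]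
        linarith
      have h3 : dimH E < (((1 : NNReal)) : ℝ≥0∞) := by
        refine lt_of_le_of_lt hE1 ?_
        rw [ENNReal.coe_one, ← ENNReal.ofReal_one]
        exact (ENNReal.ofReal_lt_ofReal_iff one_pos).2 h2
      have h4 := hausdorffMeasure_of_dimH_lt h3
      rw [NNReal.coe_one, hausdorffMeasure_real] at h4
      exact h4
    have hae : ∀ᵐ α : ℝ, α ∉ E := measure_eq_zero_iff_ae_notMem.1 hnull
    exact hae.mono fun α hα h1 => hE2 α h1 hα
  have h := ae_all_iff.2 key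
  exact h.mono fun α hα h1 δ => hα δ h1

end Pool.Agent.Results.MP_ede373_nt.InvariantsNearPowers
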