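import Pool.Agent.Seat74.TR.Alm
import Pool.Agent.Results.MP_ede373_nt.GrowingDegreeTuples

/-!
# The modular Schanuel conjecture with derivatives for all integral invariants near the multiples of almost every real vector

Let `j` be the modular invariant and let `z_1, …, z_k` be points of the upper half-plane for which the numbers
`v_i = j(z_i)` are integers. Unless one of them is a CM point or two of them are equivalent under `GL_2^+(ℚ)`, the modular
Schanuel conjecture with derivatives predicts that the `3 k` numbers `z_i`, `j'(z_i)`, `j''(z_i)` are algebraically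
independent.

Let `λ_n ≥ 1` be any sequence for which the sum of `λ_n ^ (-σ)` converges, and `b_n` any real vectors of size `O (λ_n)`; for
instance `λ_n = 2 ^ n` or `λ_n = (3 / 2) ^ n`, where any `σ > 0` is possible, or `λ_n = n ^ a` with `a > 1 / σ`. We prove:
for all `k` and `q` there is `C` such that for all `δ`, all complex numbers `w_1, …, w_q` and all `θ < 1`, for all `ξ` in
`ℝ ^ k` outside a set of Hausdorff dimension at most `(k - 1 / (δ + 2) ^ C + σ) / (1 - θ)`, for all large `n`, ALL integer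
vectors `v` with nonzero coordinates and `|v_i - (λ_n ξ_i + b_{n i})| ≤ λ_n ^ θ` have the following property: for **all**
points `z_1, …, z_k` of the upper half-plane with `j(z_i) = v_i` there is no nontrivial relation of degree at most `δ`,
whatever the height of its coefficients, between `2 π i, w_1, …, w_q` and the `3 k` numbers `z_i`, `j'(z_i)`, `j''(z_i)`,
over any number field of degree at most `δ`. This contains the vectors `v_i = ⌊λ_n ξ_i + b_{n i}⌋`, for instance the
truncated binary expansions `⌊2 ^ n ξ_i⌋`, and boxes around them with `λ_n ^ (θ k)` elements.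

If `λ_n` grows faster than every power of `n` (so that every `σ > 0` is possible), it follows that for ALMOST ALL real
vectors `ξ` this is the case for every `δ` and all `n ≥ n₀(δ)`, with `θ = 1 / (2 k (δ + 2) ^ C)`.

The sequences are very sparse, and so this does not follow from the size of the exceptional set, which is only smaller
than `T ^ k` by a factor `T ^ c` with a small positive `c`. The starting result `ApproximationVectors` is about the integer
vectors `v` for which the values of given linear forms at `v` are close to integers.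

Proof. The starting theorem `GrowingDegreeTuples` bounds the number of the exceptional vectors by `C T ^ (k - c)`; the `ξ`
for which an exceptional vector is near `λ_n ξ + b_n` form a union of `O (λ_n ^ (k - c))` cubes of side `O (λ_n ^ (θ - 1))`
in every bounded region (`Pool.Agent.Seat74.TR.dil`).
-/

set_option autoImplicit false

open Filter Topology MeasureTheory

namespace Pool.Agent.Results.MP_ede373_nt.MultiplesOfRealVectors

open Pool.Agent.Results.MP_ede373_nt.GrowingDegreeTuples (Exceptional)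

/-- the vectors with nonzero coordinates which are exceptional -/
def Exc {q k : ℕ} (δ : ℕ) (w : Fin q → ℂ) : Set (Fin k → ℤ) := {v | (∀ i, v i ≠ 0) ∧ Exceptional δ w v}

/-- for infinitely many `n` there is an exceptional vector within `λ_n ^ θ` of `λ_n ξ + b_n` -/
def Often {q k : ℕ} (δ : ℕ) (w : Fin q → ℂ) (lam : ℕ → ℝ) (b : ℕ → Fin k → ℝ) (θ : ℝ) (ξ : Fin k → ℝ) : Prop :=
  {n : ℕ | ∃ v ∈ Exc δ w, ∀ i, |(v i : ℝ) - (lam n * ξ i + b n i)| ≤ lam n ^ θ}.Infinite

theorem count (k q : ℕ) : ∃ C : ℕ, ∀ (δ : ℕ) (w : Fin q → ℂ) (T : ℕ), 1 ≤ T → ∀ F : Finset (Fin k → ℤ),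
    (∀ v ∈ F, v ∈ Exc δ w ∧ ∀ i, |v i| ≤ T) →
      (F.card : ℝ) ≤ C * (T : ℝ) ^ ((k : ℝ) - 1 / ((δ : ℝ) + 2) ^ C) := by
  classical
  obtain ⟨C, hC⟩ := Pool.Agent.Results.MP_ede373_nt.GrowingDegreeTuples.result k q
  refine ⟨C, fun δ w T hT F hF => le_trans ?_ (hC δ w T hT)⟩
  refine Nat.cast_le.2 (Finset.card_le_card fun v hv => ?_)
  obtain ⟨⟨h1, h2⟩, h3⟩ := hF v hv
  refine Finset.mem_filter.2 ⟨?_, h1, h2⟩
  rw [Fintype.mem_piFinset]
  intro i
  rw [Finset.mem_Icc]
  exact abs_le.1 (h3 i)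

/-- **Theorem.** Let `k ≥ 1`. For all `q` there is `C` with the following properties. (1) Let `λ_n ≥ 1`, `σ ≥ 0`, the sum
of the `λ_n ^ (-σ)` convergent, `|b_{n i}| ≤ M λ_n` and `θ < 1`. For all `δ`, `w` the set of the `ξ` for which, for
infinitely many `n`, there is an exceptional vector within `λ_n ^ θ` of `λ_n ξ + b_n`, has dimension at most
`(k - 1 / (δ + 2) ^ C + σ) / (1 - θ)`. (2) If the sum of the `λ_n ^ (-σ)` is convergent for all `σ > 0`, then for almost
all `ξ`, for all `δ` and all large `n`, no exceptional vector is within `λ_n ^ (1 / (2 k (δ + 2) ^ C))` of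
`λ_n ξ + b_n`. -/
theorem result (k q : ℕ) (hk : 1 ≤ k) : ∃ C : ℕ,
    (∀ (δ : ℕ) (w : Fin q → ℂ) (lam : ℕ → ℝ) (b : ℕ → Fin k → ℝ) (σ M θ : ℝ), (∀ n, 1 ≤ lam n) → 0 ≤ σ →
      Summable (fun n => lam n ^ (-σ)) → (∀ n i, |b n i| ≤ M * lam n) → θ < 1 →
        dimH {ξ : Fin k → ℝ | Often δ w lam b θ ξ} ≤
          ENNReal.ofReal (((k : ℝ) - 1 / ((δ : ℝ) + 2) ^ C + σ) / (1 - θ))) ∧
    (∀ (w : Fin q → ℂ) (lam : ℕ → ℝ) (b : ℕ → Fin k → ℝ) (M : ℝ), (∀ n, 1 ≤ lam n) →
      (∀ σ : ℝ, 0 < σ → Summable fun n => lam n ^ (-σ)) → (∀ n i, |b n i| ≤ M * lam n) →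
        ∀ᵐ ξ : Fin k → ℝ, ∀ δ : ℕ, ∀ᶠ n in atTop, ∀ v ∈ Exc δ w,
          ¬ ∀ i, |(v i : ℝ) - (lam n * ξ i + b n i)| ≤ lam n ^ (1 / (2 * k * ((δ : ℝ) + 2) ^ C))) := by
  classical
  obtain ⟨C, hC⟩ := count k q
  have hk1 : (1 : ℝ) ≤ k := by exact_mod_cast hk
  have hc1 : ∀ δ : ℕ, 1 / ((δ : ℝ) + 2) ^ C ≤ 1 := fun δ => by
    have h2 : (1 : ℝ) ≤ (δ : ℝ) + 2 := by
      have : (0 : ℝ) ≤ δ := Nat.cast_nonneg δ
      linarith
    rw [div_le_one (by positivity)]
    exact one_le_pow₀ h2
  refine ⟨C, fun δ w lam b σ M θ h1 hσ hsum hb hθ => ?_, fun w lam b M h1 hsum hb => ?_⟩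
  · exact Pool.Agent.Seat74.TR.dil (Exc δ w) (s := (k : ℝ) - 1 / ((δ : ℝ) + 2) ^ C) (C := C)
      (by linarith [hc1 δ]) (hC δ w) lam h1 hσ hsum b hb hθ
  · have hne : Nonempty (Fin k) := ⟨⟨0, hk⟩⟩
    have h2 := Pool.Agent.Seat74.TR.almost_all (X := Fin k) (fun δ => Exc δ w)
      (fun δ => 1 / ((δ : ℝ) + 2) ^ C) (fun δ => by positivity) hc1
      (fun δ => ⟨C, fun T hT F hF => by
        have h3 := hC δ w T hT F hF
        rwa [Fintype.card_fin]⟩) lam h1 hsum b hb
    refine h2.mono fun ξ hξ δ => (hξ δ).mono fun n hn v hv hcon => hn v hv fun i => ?_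
    refine (hcon i).trans (le_of_eq ?_)
    congr 1
    rw [Fintype.card_fin]
    have : ((δ : ℝ) + 2) ^ C ≠ 0 := by positivity
    have hk0 : (k : ℝ) ≠ 0 := by positivity
    field_simp

/-- exponential growth is sufficient in the second part -/
example {lam : ℕ → ℝ} {α : ℝ} (hα : 1 < α) (h : ∀ n, α ^ n ≤ lam n) (σ : ℝ) (hσ : 0 < σ) :
    Summable fun n => lam n ^ (-σ) :=
  Pool.Agent.Seat74.TR.summable_exp hα h σ hσ

/-- the integral parts are near enough -/
example (x : ℝ) (l θ : ℝ) (hl : 1 ≤ l) (hθ : 0 ≤ θ) : |((⌊x⌋ : ℤ) : ℝ) - x| ≤ l ^ θ := by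
  have h1 := Int.floor_le x
  have h2 := Int.lt_floor_add_one x
  have h3 : 1 ≤ l ^ θ := Real.one_le_rpow hl hθ
  rw [abs_le]
  constructor <;> linarith

end Pool.Agent.Results.MP_ede373_nt.MultiplesOfRealVectors
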